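import Pool.Agent.Helper89.KN.Spec
import Pool.Agent.Helper89.KN.Base

/-! MP_2af9b5_pr, part BASIC. -/

open MeasureTheory Set Filter Topology
open scoped ENNReal

namespace KN.H53

theorem ae_mem {S : Set ℂ} (hS : MeasurableSet S) (m : ℕ) :
    ∀ᵐ x ∂(Measure.pi fun _ : Fin m => volume.restrict S), ∀ i, x i ∈ S := by
  rw [ae_all_iff]
  intro i
  exact (Measure.tendsto_eval_ae_ae (μ := fun _ : Fin m => volume.restrict S) (i := i)).eventually
    (ae_restrict_mem hS)

theorem prob_mono_ae {S : Set ℂ} {Q Q' : ∀ m : ℕ, (Fin m → ℂ) → Prop} (hS : MeasurableSet S)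
    (h : ∀ m x, (∀ i, x i ∈ S) → Q m x → Q' m x) : prob S Q ≤ prob S Q' := by
  unfold prob
  refine ENNReal.tsum_le_tsum fun m => ?_
  refine mul_le_mul' le_rfl ?_
  refine measure_mono_ae ?_
  filter_upwards [ae_mem hS m] with x hx hq
  exact h m x hx hq

theorem prob_or {S : Set ℂ} (Q Q' : ∀ m : ℕ, (Fin m → ℂ) → Prop) :
    prob S (fun m x => Q m x ∨ Q' m x) ≤ prob S Q + prob S Q' := by
  unfold prob
  rw [← ENNReal.tsum_add]
  refine ENNReal.tsum_le_tsum fun m => ?_
  rw [← mul_add]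
  refine mul_le_mul' le_rfl ?_
  exact measure_union_le _ _

theorem prob_false (S : Set ℂ) : prob S (fun _ _ => False) = 0 := by
  unfold prob
  simp

theorem prob_ex {S : Set ℂ} {ι : Type} (I : Finset ι) (Q : ι → ∀ m : ℕ, (Fin m → ℂ) → Prop) :
    prob S (fun m x => ∃ i ∈ I, Q i m x) ≤ ∑ i ∈ I, prob S (Q i) := by
  classical
  induction I using Finset.induction_on with
  | empty =>
    simp only [Finset.notMem_empty, false_and, exists_false, Finset.sum_empty]
    exact (prob_false S).le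
  | insert a s ha ih =>
    rw [Finset.sum_insert ha]
    have : (fun m (x : Fin m → ℂ) => ∃ i ∈ insert a s, Q i m x) =
        fun m x => Q a m x ∨ ∃ i ∈ s, Q i m x := by
      funext m x
      simp only [Finset.mem_insert, eq_iff_iff]
      constructor
      · rintro ⟨i, hi | hi, hq⟩
        · exact Or.inl (hi ▸ hq)
        · exact Or.inr ⟨i, hi, hq⟩
      · rintro (hq | ⟨i, hi, hq⟩)
        · exact ⟨a, Or.inl rfl, hq⟩
        · exact ⟨i, Or.inr hi, hq⟩
    rw [this]
    refine (prob_or _ _).trans ?_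
    gcongr

theorem sum_pois {a : ℝ} (ha : 0 ≤ a) :
    ∑' m : ℕ, ENNReal.ofReal (Real.exp (-a) / m.factorial) * ENNReal.ofReal a ^ m = 1 := by
  have h1 : ∀ m : ℕ, ENNReal.ofReal (Real.exp (-a) / m.factorial) * ENNReal.ofReal a ^ m =
      ENNReal.ofReal (Real.exp (-a) * (a ^ m / m.factorial)) := by
    intro m
    rw [← ENNReal.ofReal_pow ha, ← ENNReal.ofReal_mul (by positivity)]
    congr 1
    ring
  simp only [h1]
  have hs : HasSum (fun m : ℕ => a ^ m / (m.factorial : ℝ)) (Real.exp a) := by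
    rw [Real.exp_eq_exp_ℝ]
    exact NormedSpace.expSeries_div_hasSum_exp a
  have hs2 := hs.mul_left (Real.exp (-a))
  rw [← ENNReal.ofReal_tsum_of_nonneg (fun m => by positivity) hs2.summable, hs2.tsum_eq,
    ← Real.exp_add]
  simp

theorem prob_true {S : Set ℂ} (hS : volume S ≠ ⊤) : prob S (fun _ _ => True) = 1 := by
  unfold prob
  have h1 : ∀ m : ℕ, (Measure.pi fun _ : Fin m => volume.restrict S) {x | True} =
      ENNReal.ofReal (volume S).toReal ^ m := by
    intro m
    have : {x : Fin m → ℂ | True} = univ := by simp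
    rw [this, Measure.pi_univ]
    simp [ENNReal.ofReal_toReal hS]
  simp only [h1]
  exact sum_pois ENNReal.toReal_nonneg

theorem prob_compl {S : Set ℂ} (Q : ∀ m : ℕ, (Fin m → ℂ) → Prop) (hS : volume S ≠ ⊤)
    (hQ : ∀ m, MeasurableSet {x | Q m x}) :
    prob S Q + prob S (fun m x => ¬ Q m x) = 1 := by
  rw [← prob_true hS]
  unfold prob
  rw [← ENNReal.tsum_add]
  congr 1
  funext m
  rw [← mul_add]
  congr 1
  have : {x : Fin m → ℂ | True} = univ := by simp
  rw [this]
  exact measure_add_measure_compl (hQ m)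

end KN.H53

namespace KN

theorem basic_thm : S_BASIC :=
  ⟨fun _ _ _ hS h => H53.prob_mono_ae hS h, fun _ Q Q' => H53.prob_or Q Q',
    fun _ _ I Q => H53.prob_ex I Q, fun _ hS => H53.prob_true hS,
    fun _ Q hS hQ => H53.prob_compl Q hS hQ⟩

end KN
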