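import Pool.Agent.Helper89.KN.Spec
import Pool.Agent.Helper89.KN.Base
import Pool.Agent.Helper53.KN.BASIC

/-! MP_2af9b5_pr, parts IND, RES, FAM, LOWC (from SUP). -/

open MeasureTheory Set Filter Topology
open scoped ENNReal

namespace KN.H53

theorem PP_const_true {S : Set ℂ} (hS : volume S ≠ ⊤) : PP S (fun _ => True) = 1 := prob_true hS

theorem PP_const_false (S : Set ℂ) : PP S (fun _ => False) = 0 := prob_false S

theorem meas_fst {Q : Multiset ℂ → Prop} (hQ : EMeas Q) (m l : ℕ) :
    MeasurableSet {p : (Fin m → ℂ) × (Fin l → ℂ) | Q (conf p.1)} := measurable_fst (hQ m)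

theorem meas_snd {Q : Multiset ℂ → Prop} (hQ : EMeas Q) (m l : ℕ) :
    MeasurableSet {p : (Fin m → ℂ) × (Fin l → ℂ) | Q (conf p.2)} := measurable_snd (hQ l)

theorem ind_thm (hsup : S_SUP) : S_IND := by
  intro S₁ S₂ h1 h2 hd f1 f2 Q₁ Q₂ hQ₁ hQ₂
  have h := hsup S₁ S₂ h1 h2 hd f1 f2 (fun ω ω' => Q₁ ω ∧ Q₂ ω') fun m l =>
    (meas_fst hQ₁ m l).inter (meas_snd hQ₂ m l)
  rw [h]
  have hx : ∀ m : ℕ, ∫⁻ x, PP S₂ (fun ω' => Q₁ (conf x) ∧ Q₂ ω')
      ∂(Measure.pi fun _ : Fin m => volume.restrict S₁) =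
      (Measure.pi fun _ : Fin m => volume.restrict S₁) {x | Q₁ (conf x)} * PP S₂ Q₂ := by
    intro m
    have h3 : (fun x : Fin m → ℂ => PP S₂ (fun ω' => Q₁ (conf x) ∧ Q₂ ω')) =
        {x : Fin m → ℂ | Q₁ (conf x)}.indicator (fun _ => PP S₂ Q₂) := by
      funext x
      by_cases hq : Q₁ (conf x)
      · rw [indicator_of_mem (show x ∈ {x : Fin m → ℂ | Q₁ (conf x)} from hq)]
        congr 1
        funext ω'
        simp [hq]
      · rw [indicator_of_notMem (show x ∉ {x : Fin m → ℂ | Q₁ (conf x)} from hq)]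
        rw [← PP_const_false S₂]
        congr 1
        funext ω'
        simp [hq]
    rw [h3, lintegral_indicator (hQ₁ m), setLIntegral_const, mul_comm]
  simp only [hx]
  unfold PP prob
  rw [← ENNReal.tsum_mul_right]
  congr 1
  funext m
  ring

theorem emeas_true : EMeas (fun _ => True) := fun m => by
  simp

theorem res_thm (hsup : S_SUP) : S_RES := by
  intro S W hS hW hWS hfin Q hQ
  have hWf : volume W ≠ ⊤ := fun h => hfin (top_le_iff.1 (h ▸ measure_mono hWS))
  have hSf : volume (S \ W) ≠ ⊤ := fun h => hfin (top_le_iff.1 (h ▸ measure_mono sdiff_subset))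
  have h := ind_thm hsup W (S \ W) hW (hS.diff hW) disjoint_sdiff_right hWf hSf Q (fun _ => True)
    hQ emeas_true
  rw [union_sdiff_cancel hWS, PP_const_true hSf, mul_one] at h
  rw [← h]
  congr 1
  funext ω
  simp

/-- restriction to a measurable set preserves measurability of events -/
theorem emeas_res {Q : Multiset ℂ → Prop} (hQ : EMeas Q) {W : Set ℂ} (hW : MeasurableSet W) :
    EMeas (fun ω => Q (res W ω)) := by
  classical
  intro m
  have hconf : ∀ (I : Finset (Fin m)) (x : Fin m → ℂ), (∀ i, x i ∈ W ↔ i ∈ I) →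
      res W (conf x) = conf (fun j : Fin I.card => x (I.orderEmbOfFin rfl j)) := by
    intro I x hI
    unfold conf res
    rw [Multiset.filter_map]
    have h1 : Multiset.filter ((fun z => z ∈ W) ∘ x) (Finset.univ : Finset (Fin m)).val = I.val := by
      have : (Finset.univ.filter (fun i => x i ∈ W)) = I := by
        ext i
        simp [hI]
      conv_rhs => rw [← this]
      rfl
    rw [h1]
    have h2 : I.val = (Finset.univ : Finset (Fin I.card)).val.map (I.orderEmbOfFin rfl) := by
      have h3 := Finset.map_orderEmbOfFin_univ I rfl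
      conv_lhs => rw [← h3]
      rfl
    conv_lhs => rw [h2]
    rw [Multiset.map_map]
    rfl
  have : {x : Fin m → ℂ | Q (res W (conf x))} =
      ⋃ I : Finset (Fin m), ({x | ∀ i, x i ∈ W ↔ i ∈ I} ∩
        {x | Q (conf (fun j : Fin I.card => x (I.orderEmbOfFin rfl j)))}) := by
    ext x
    simp only [mem_ofPred_eq, mem_iUnion, mem_inter_iff]
    constructor
    · intro h
      refine ⟨Finset.univ.filter (fun i => x i ∈ W), fun i => by simp, ?_⟩
      rw [← hconf _ x fun i => by simp]
      exact h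
    · rintro ⟨I, hI, h⟩
      rw [hconf I x hI]
      exact h
  rw [this]
  refine MeasurableSet.iUnion fun I => MeasurableSet.inter ?_ ?_
  · have : {x : Fin m → ℂ | ∀ i, x i ∈ W ↔ i ∈ I} = ⋂ i, {x | x i ∈ W ↔ i ∈ I} := by
      ext x; simp
    rw [this]
    refine MeasurableSet.iInter fun i => ?_
    by_cases hi : i ∈ I
    · simp only [hi, iff_true]
      exact (measurable_pi_apply i) hW
    · simp only [hi, iff_false]
      exact ((measurable_pi_apply i) hW :
        MeasurableSet ((fun x : Fin m → ℂ => x i) ⁻¹' W)).compl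
  · have hf : Measurable fun x : Fin m → ℂ => fun j : Fin I.card => x (I.orderEmbOfFin rfl j) :=
      measurable_pi_lambda _ fun j => measurable_pi_apply _
    exact hf (hQ I.card)

theorem emeas_forall {N : ℕ} {Q : Fin N → Multiset ℂ → Prop} (hQ : ∀ i, EMeas (Q i)) :
    EMeas (fun ω => ∀ i, Q i ω) := by
  intro m
  have : {x : Fin m → ℂ | ∀ i, Q i (conf x)} = ⋂ i, {x | Q i (conf x)} := by
    ext x; simp
  rw [this]
  exact MeasurableSet.iInter fun i => hQ i m

theorem fam_aux (hind : S_IND) : ∀ (N : ℕ) (S : Set ℂ) (W : Fin N → Set ℂ)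
    (Q : Fin N → Multiset ℂ → Prop), MeasurableSet S →
    (∀ i, MeasurableSet (W i)) → (∀ i, W i ⊆ S) → (∀ i j, i ≠ j → Disjoint (W i) (W j)) →
    volume S ≠ ⊤ → (∀ i, EMeas (Q i)) →
    PP S (fun ω => ∀ i, Q i (res (W i) ω)) = ∏ i, PP (W i) (Q i) := by
  intro N
  induction N with
  | zero =>
    intro S W Q hS _ _ _ hfin _
    simp only [Finset.univ_eq_empty, Finset.prod_empty]
    rw [← PP_const_true hfin]
    congr 1
    funext ω
    simp
  | succ N ih =>
    intro S W Q hS hW hWS hd hfin hQ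
    have hWf : volume (W 0) ≠ ⊤ := fun h => hfin (top_le_iff.1 (h ▸ measure_mono (hWS 0)))
    have hSf : volume (S \ W 0) ≠ ⊤ :=
      fun h => hfin (top_le_iff.1 (h ▸ measure_mono sdiff_subset))
    have hsub : ∀ i : Fin N, W i.succ ⊆ S \ W 0 := fun i z hz =>
      ⟨hWS _ hz, fun h0 => (Set.disjoint_left.1 (hd i.succ 0 (Fin.succ_ne_zero i))) hz h0⟩
    have h1 := ih (S \ W 0) (fun i => W i.succ) (fun i => Q i.succ) (hS.diff (hW 0))
      (fun i => hW _) hsub (fun i j hij => hd _ _ fun h => hij (Fin.succ_injective _ h)) hSf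
      (fun i => hQ _)
    have h2 := hind (W 0) (S \ W 0) (hW 0) (hS.diff (hW 0)) disjoint_sdiff_right hWf hSf (Q 0)
      (fun ω => ∀ i : Fin N, Q i.succ (res (W i.succ) ω)) (hQ 0)
      (emeas_forall fun i => emeas_res (hQ i.succ) (hW i.succ))
    rw [union_sdiff_cancel (hWS 0), h1] at h2
    rw [Fin.prod_univ_succ, ← h2]
    congr 1
    funext ω
    simp only [eq_iff_iff]
    constructor
    · intro h
      refine ⟨h 0, fun i => ?_⟩
      rw [res_res, inter_eq_left.2 (hsub i)]
      exact h i.succ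
    · rintro ⟨h0, h⟩ i
      refine Fin.cases h0 (fun i => ?_) i
      have := h i
      rw [res_res, inter_eq_left.2 (hsub i)] at this
      exact this

theorem emeas_card (P : ℕ → Prop) : EMeas (fun ω => P (Multiset.card ω)) := by
  intro m
  simp only [card_conf]
  exact MeasurableSet.const _

theorem PP_card_ge {C : Set ℂ} (hC : volume C ≠ ⊤) (q : ℕ) :
    ENNReal.ofReal (Real.exp (-(volume C).toReal) * (volume C).toReal ^ q / q.factorial) ≤
      PP C (fun ω => q ≤ Multiset.card ω) := by
  unfold PP prob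
  refine le_trans ?_ (ENNReal.le_tsum q)
  have h : {x : Fin q → ℂ | q ≤ Multiset.card (conf x)} = univ := by
    ext x; simp
  rw [h, Measure.pi_univ]
  simp only [Measure.restrict_apply_univ, Finset.prod_const, Finset.card_univ, Fintype.card_fin]
  rw [← ENNReal.ofReal_toReal hC, ← ENNReal.ofReal_pow ENNReal.toReal_nonneg,
    ← ENNReal.ofReal_mul (by positivity), ENNReal.toReal_ofReal ENNReal.toReal_nonneg]
  refine le_of_eq ?_
  congr 1
  ring

theorem PP_card_zero (Z : Set ℂ) :
    ENNReal.ofReal (Real.exp (-(volume Z).toReal)) ≤ PP Z (fun ω => Multiset.card ω = 0) := by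
  unfold PP prob
  refine le_trans ?_ (ENNReal.le_tsum 0)
  have h : {x : Fin 0 → ℂ | Multiset.card (conf x) = 0} = univ := by
    ext x; simp
  rw [h, Measure.pi_univ]
  simp

end KN.H53

namespace KN

open H53

theorem ind_thm (h : S_SUP) : S_IND := H53.ind_thm h

theorem res_thm (h : S_SUP) : S_RES := H53.res_thm h

theorem fam_thm (hind : S_IND) : S_FAM := fun S N W Q hS hW hWS hd hfin hQ =>
  H53.fam_aux hind N S W Q hS hW hWS hd hfin hQ

theorem lowc_thm (hfam : S_FAM) : S_LOWC := by
  intro S Z N C q hS hZ hC hZS hCS hZC hCC hfin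
  have hf : ∀ W : Set ℂ, W ⊆ S → volume W ≠ ⊤ := fun W hW h =>
    hfin (top_le_iff.1 (h ▸ measure_mono hW))
  have h := hfam S (N + 1) (Fin.cons Z C)
    (Fin.cons (fun ω => Multiset.card ω = 0) fun i ω => q i ≤ Multiset.card ω) hS
    (fun i => by refine Fin.cases hZ (fun i => hC i) i)
    (fun i => by refine Fin.cases hZS (fun i => hCS i) i)
    (fun i j hij => by
      refine Fin.cases (fun hij => ?_) (fun i hij => ?_) i hij
      · refine Fin.cases (fun hij => absurd rfl hij) (fun j _ => ?_) j hij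
        exact hZC j
      · refine Fin.cases (fun _ => ?_) (fun j hij => ?_) j hij
        · exact (hZC i).symm
        · exact hCC i j fun h => hij (by rw [h])) hfin
    (fun i => by
      refine Fin.cases ?_ (fun i => ?_) i
      · exact emeas_card (fun c => c = 0)
      · exact emeas_card (fun c => q i ≤ c))
  have he : PP S (fun ω => cnt Z ω = 0 ∧ ∀ i, q i ≤ cnt (C i) ω) =
      PP Z (fun ω => Multiset.card ω = 0) * ∏ i, PP (C i) (fun ω => q i ≤ Multiset.card ω) := by
    rw [Fin.prod_univ_succ] at h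
    simp only [Fin.cons_zero, Fin.cons_succ] at h
    rw [← h]
    congr 1
    funext ω
    simp only [eq_iff_iff]
    constructor
    · rintro ⟨h0, h1⟩ i
      refine Fin.cases h0 (fun i => h1 i) i
    · intro h'
      exact ⟨h' 0, fun i => h' i.succ⟩
  rw [he, ENNReal.ofReal_mul (Real.exp_nonneg _),
    ENNReal.ofReal_prod_of_nonneg (fun i _ => by positivity)]
  refine mul_le_mul' (PP_card_zero Z) (Finset.prod_le_prod' fun i _ => ?_)
  exact PP_card_ge (hf _ (hCS i)) (q i)

end KN
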