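import Pool.Agent.Helper89.KN.Spec
import Pool.Agent.Helper89.KN.Base
import Pool.Agent.Helper53.KN.BASIC

/-! MP_2af9b5_pr, parts MECKE, MECKE2, ONEPT. -/

open MeasureTheory Set Filter Topology
open scoped ENNReal

namespace KN.H53

/-- the configuration split at the index `i` -/
theorem conf_succAbove {m : ℕ} (x : Fin (m + 1) → ℂ) (i : Fin (m + 1)) :
    conf x = x i ::ₘ conf (fun j => x (i.succAbove j)) := by
  unfold conf
  rw [Fin.univ_succAbove m i]
  simp only [Finset.cons_val, Multiset.map_cons, Finset.map_val, Multiset.map_map]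
  rfl

theorem exists_cons {m : ℕ} {x : Fin (m + 1) → ℂ} {z : ℂ} {rest : Multiset ℂ}
    (h : conf x = z ::ₘ rest) : ∃ i, x i = z ∧ rest = conf (fun j => x (i.succAbove j)) := by
  have hz : z ∈ conf x := by rw [h]; exact Multiset.mem_cons_self _ _
  obtain ⟨i, hi⟩ := mem_conf.1 hz
  refine ⟨i, hi, ?_⟩
  rw [conf_succAbove x i, hi] at h
  exact ((Multiset.cons_inj_right z).1 h).symm

theorem conf_zero_ne {x : Fin 0 → ℂ} {z : ℂ} {rest : Multiset ℂ} (h : conf x = z ::ₘ rest) :
    False := by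
  have := congrArg Multiset.card h
  simp at this

/-- the product of restricted measures -/
noncomputable abbrev pim (S : Set ℂ) (m : ℕ) : Measure (Fin m → ℂ) :=
  Measure.pi fun _ : Fin m => volume.restrict S

theorem pim_succ (S : Set ℂ) (m : ℕ) (i : Fin (m + 1)) (A : Set (ℂ × (Fin m → ℂ)))
    (hA : MeasurableSet A) :
    pim S (m + 1) {x | (x i, fun j => x (i.succAbove j)) ∈ A} =
      ∫⁻ z in S, pim S m {y | (z, y) ∈ A} := by
  have h := measurePreserving_piFinSuccAbove (fun _ : Fin (m + 1) => volume.restrict S) i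
  have h2 := h.measure_preimage_equiv A
  rw [Measure.prod_apply hA] at h2
  exact h2

theorem meas_split {Q : ℂ → Multiset ℂ → Prop} (hQ : JMeas Q) (m : ℕ) :
    MeasurableSet {p : ℂ × (Fin m → ℂ) | Q p.1 (conf p.2)} := hQ m

theorem event_eq {Q : ℂ → Multiset ℂ → Prop} (m : ℕ) :
    {x : Fin (m + 1) → ℂ | ∃ z rest, conf x = z ::ₘ rest ∧ Q z rest} =
      ⋃ i : Fin (m + 1), {x | Q (x i) (conf fun j => x (i.succAbove j))} := by
  ext x
  simp only [mem_ofPred_eq, mem_iUnion]
  constructor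
  · rintro ⟨z, rest, h, hq⟩
    obtain ⟨i, hi, hr⟩ := exists_cons h
    refine ⟨i, ?_⟩
    rw [hi, ← hr]
    exact hq
  · rintro ⟨i, hq⟩
    exact ⟨x i, _, conf_succAbove x i, hq⟩

theorem coef_succ (a : ℝ) (m : ℕ) :
    ENNReal.ofReal (Real.exp (-a) / (m + 1).factorial) * ((m + 1 : ℕ) : ℝ≥0∞) =
      ENNReal.ofReal (Real.exp (-a) / m.factorial) := by
  have h : ((m + 1 : ℕ) : ℝ≥0∞) = ENNReal.ofReal ((m + 1 : ℕ) : ℝ) := by
    rw [ENNReal.ofReal_natCast]
  rw [h, ← ENNReal.ofReal_mul (by positivity)]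
  congr 1
  rw [Nat.factorial_succ]
  push_cast
  have h1 : (m.factorial : ℝ) ≠ 0 := by positivity
  have h2 : (m : ℝ) + 1 ≠ 0 := by positivity
  field_simp

/-- the integral of the probabilities as a sum -/
theorem lint_PP {S Z : Set ℂ} {Q : ℂ → Multiset ℂ → Prop} (hQ : JMeas Q) :
    ∫⁻ z in Z, PP S (Q z) =
      ∑' m : ℕ, ENNReal.ofReal (Real.exp (-(volume S).toReal) / m.factorial) *
        ∫⁻ z in Z, pim S m {y | Q z (conf y)} := by
  unfold PP prob
  have hm : ∀ m, Measurable fun z => pim S m {y | Q z (conf y)} := fun m =>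
    measurable_measure_prodMk_left (ν := pim S m) (hQ m)
  rw [lintegral_tsum fun m => ((hm m).const_mul _).aemeasurable]
  congr 1
  funext m
  rw [lintegral_const_mul _ (hm m)]

end KN.H53

namespace KN

open H53

theorem mecke_thm : S_MECKE := by
  intro S hS hfin Q hQ
  rw [lint_PP hQ]
  unfold PP prob
  rw [tsum_eq_zero_add' ENNReal.summable]
  have h0 : {x : Fin 0 → ℂ | ∃ z rest, conf x = z ::ₘ rest ∧ Q z rest} = ∅ := by
    ext x
    simp only [mem_ofPred_eq, mem_empty_iff_false, iff_false]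
    rintro ⟨z, rest, h, -⟩
    exact conf_zero_ne h
  rw [h0, measure_empty, mul_zero, zero_add]
  refine ENNReal.tsum_le_tsum fun m => ?_
  rw [event_eq]
  calc ENNReal.ofReal (Real.exp (-(volume S).toReal) / (m + 1).factorial) *
        (pim S (m + 1)) (⋃ i : Fin (m + 1), {x | Q (x i) (conf fun j => x (i.succAbove j))})
      ≤ ENNReal.ofReal (Real.exp (-(volume S).toReal) / (m + 1).factorial) *
          ∑ i : Fin (m + 1), pim S (m + 1) {x | Q (x i) (conf fun j => x (i.succAbove j))} := by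
        refine mul_le_mul' le_rfl ?_
        exact measure_iUnion_fintype_le _ _
    _ = ENNReal.ofReal (Real.exp (-(volume S).toReal) / (m + 1).factorial) *
          ∑ _i : Fin (m + 1), ∫⁻ z in S, pim S m {y | Q z (conf y)} := by
        congr 1
        refine Finset.sum_congr rfl fun i _ => ?_
        exact pim_succ S m i {p | Q p.1 (conf p.2)} (hQ m)
    _ = ENNReal.ofReal (Real.exp (-(volume S).toReal) / m.factorial) *
          ∫⁻ z in S, pim S m {y | Q z (conf y)} := by
        rw [Finset.sum_const, Finset.card_univ, Fintype.card_fin, nsmul_eq_mul, ← mul_assoc,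
          coef_succ]

theorem mecke2_thm : S_MECKE2 := by
  intro S hS hfin Q hQ
  have hQ' : JMeas (fun (z : ℂ) ω => ∃ w rest, ω = w ::ₘ rest ∧ Q (z, w) rest) := by
    intro m
    cases m with
    | zero =>
      convert MeasurableSet.empty using 1
      ext p
      simp only [mem_ofPred_eq, mem_empty_iff_false, iff_false]
      rintro ⟨w, rest, h, -⟩
      exact conf_zero_ne h
    | succ m =>
      have : {p : ℂ × (Fin (m + 1) → ℂ) | ∃ w rest, conf p.2 = w ::ₘ rest ∧ Q (p.1, w) rest} =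
          ⋃ i : Fin (m + 1), {p | Q (p.1, p.2 i) (conf fun j => p.2 (i.succAbove j))} := by
        ext p
        have := congrArg (fun A => p.2 ∈ A) (event_eq (Q := fun w => Q (p.1, w)) m)
        simp only [mem_ofPred_eq, mem_iUnion, eq_iff_iff] at this ⊢
        exact this
      rw [this]
      refine MeasurableSet.iUnion fun i => ?_
      have hf : Measurable fun p : ℂ × (Fin (m + 1) → ℂ) =>
          ((p.1, p.2 i), fun j => p.2 (i.succAbove j)) := by
        refine (measurable_fst.prodMk ((measurable_pi_apply i).comp measurable_snd)).prodMk ?_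
        exact measurable_pi_lambda _ fun j => (measurable_pi_apply _).comp measurable_snd
      exact hf (hQ m)
  have h1 := mecke_thm S hS hfin _ hQ'
  have h2 : ∀ z, PP S (fun ω => ∃ w rest, ω = w ::ₘ rest ∧ Q (z, w) rest) ≤
      ∫⁻ w in S, PP S (Q (z, w)) := by
    intro z
    refine mecke_thm S hS hfin (fun w => Q (z, w)) ?_
    intro m
    have hf : Measurable fun p : ℂ × (Fin m → ℂ) => ((z, p.1), p.2) :=
      (measurable_const.prodMk measurable_fst).prodMk measurable_snd
    exact hf (hQ m)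
  refine le_trans ?_ (h1.trans (lintegral_mono h2))
  refine le_of_eq ?_
  congr 1
  funext ω
  simp only [eq_iff_iff]
  constructor
  · rintro ⟨z, w, rest, h, hq⟩
    exact ⟨z, _, h, w, rest, rfl, hq⟩
  · rintro ⟨z, _, h, w, rest, rfl, hq⟩
    exact ⟨z, w, rest, h, hq⟩

theorem onept_thm : S_ONEPT := by
  intro S Z hS hZ hZS hfin Q hQ
  have hcnt : ∀ m, MeasurableSet {y : Fin m → ℂ | cnt Z (conf y) = 0} := by
    intro m
    have : {y : Fin m → ℂ | cnt Z (conf y) = 0} = ⋂ i, {y | y i ∈ Zᶜ} := by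
      ext y
      simp only [mem_ofPred_eq, cnt_eq_zero, mem_conf, mem_iInter, mem_compl_iff]
      constructor
      · intro h i
        exact h _ ⟨i, rfl⟩
      · rintro h z ⟨i, rfl⟩
        exact h i
    rw [this]
    exact MeasurableSet.iInter fun i => (measurable_pi_apply i) hZ.compl
  have hQ2 : JMeas (fun (z : ℂ) ω => cnt Z ω = 0 ∧ Q z ω) := by
    intro m
    have : {p : ℂ × (Fin m → ℂ) | cnt Z (conf p.2) = 0 ∧ Q p.1 (conf p.2)} =
        (Prod.snd ⁻¹' {y : Fin m → ℂ | cnt Z (conf y) = 0}) ∩ {p | Q p.1 (conf p.2)} := rfl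
    rw [this]
    exact (measurable_snd (hcnt m)).inter (hQ m)
  rw [lint_PP hQ2]
  unfold PP prob
  rw [tsum_eq_zero_add' (f := fun m => ENNReal.ofReal (Real.exp (-(volume S).toReal) /
    m.factorial) * (Measure.pi fun _ : Fin m => volume.restrict S)
      {x | ∃ z ∈ Z, ∃ rest, conf x = z ::ₘ rest ∧ cnt Z rest = 0 ∧ Q z rest}) ENNReal.summable]
  refine le_trans ?_ (self_le_add_left _ _)
  refine ENNReal.tsum_le_tsum fun m => ?_
  set A : Fin (m + 1) → Set (Fin (m + 1) → ℂ) := fun i =>
    {x | x i ∈ Z ∧ cnt Z (conf fun j => x (i.succAbove j)) = 0 ∧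
      Q (x i) (conf fun j => x (i.succAbove j))} with hAdef
  have hB : MeasurableSet {p : ℂ × (Fin m → ℂ) | p.1 ∈ Z ∧ cnt Z (conf p.2) = 0 ∧
      Q p.1 (conf p.2)} := (measurable_fst hZ).inter (hQ2 m)
  have hAm : ∀ i, MeasurableSet (A i) := by
    intro i
    have hf : Measurable fun x : Fin (m + 1) → ℂ => (x i, fun j => x (i.succAbove j)) :=
      (measurable_pi_apply i).prodMk (measurable_pi_lambda _ fun j => measurable_pi_apply _)
    exact hf hB
  have hAd : Pairwise (Function.onFun Disjoint A) := by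
    intro i i' hii
    refine Set.disjoint_left.2 ?_
    rintro x ⟨-, h2, -⟩ ⟨h1', -, -⟩
    rw [cnt_eq_zero] at h2
    obtain ⟨j, hj⟩ := Fin.exists_succAbove_eq hii.symm
    refine h2 (x i') ?_ h1'
    rw [mem_conf]
    exact ⟨j, by rw [hj]⟩
  have hAi : ∀ i, pim S (m + 1) (A i) =
      ∫⁻ z in Z, pim S m {y | cnt Z (conf y) = 0 ∧ Q z (conf y)} := by
    intro i
    have h := pim_succ S m i _ hB
    refine h.trans ?_
    have hsub : ∀ z, pim S m {y | (z, y) ∈ {p : ℂ × (Fin m → ℂ) | p.1 ∈ Z ∧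
        cnt Z (conf p.2) = 0 ∧ Q p.1 (conf p.2)}} =
        Z.indicator (fun z => pim S m {y | cnt Z (conf y) = 0 ∧ Q z (conf y)}) z := by
      intro z
      by_cases hz : z ∈ Z
      · rw [indicator_of_mem hz]
        congr 1
        ext y
        simp [hz]
      · rw [indicator_of_notMem hz]
        have : {y : Fin m → ℂ | (z, y) ∈ {p : ℂ × (Fin m → ℂ) | p.1 ∈ Z ∧
            cnt Z (conf p.2) = 0 ∧ Q p.1 (conf p.2)}} = ∅ := by
          ext y
          simp [hz]
        rw [this, measure_empty]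
    simp only [hsub]
    rw [lintegral_indicator hZ, Measure.restrict_restrict hZ, inter_eq_left.2 hZS]
  have hsub : (⋃ i, A i) ⊆ {x : Fin (m + 1) → ℂ | ∃ z ∈ Z, ∃ rest,
      conf x = z ::ₘ rest ∧ cnt Z rest = 0 ∧ Q z rest} := by
    intro x hx
    obtain ⟨i, h1, h2, h3⟩ := mem_iUnion.1 hx
    exact ⟨x i, h1, _, conf_succAbove x i, h2, h3⟩
  calc ENNReal.ofReal (Real.exp (-(volume S).toReal) / m.factorial) *
        ∫⁻ z in Z, pim S m {y | cnt Z (conf y) = 0 ∧ Q z (conf y)}
      = ENNReal.ofReal (Real.exp (-(volume S).toReal) / (m + 1).factorial) *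
          ∑ _i : Fin (m + 1), ∫⁻ z in Z, pim S m {y | cnt Z (conf y) = 0 ∧ Q z (conf y)} := by
        rw [Finset.sum_const, Finset.card_univ, Fintype.card_fin, nsmul_eq_mul, ← mul_assoc,
          coef_succ]
    _ = ENNReal.ofReal (Real.exp (-(volume S).toReal) / (m + 1).factorial) *
          pim S (m + 1) (⋃ i, A i) := by
        congr 1
        rw [measure_iUnion hAd hAm, tsum_fintype]
        exact Finset.sum_congr rfl fun i _ => (hAi i).symm
    _ ≤ _ := mul_le_mul' le_rfl (measure_mono hsub)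

end KN
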